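import Pool.Agent.W631.GP.Main

set_option autoImplicit false

/-!
# (DGP) implies Vopěnka's principle

Let `L` be a first-order language. There are a ring `R` and an assignment of an `R`-module `G A` to
every `L`-structure `A` such that, for every class `K` of `L`-structures, if the class of
`𝒳`-Gorenstein projective modules with `𝒳 = {Y | Ext¹(G A, Y) = 0 for all A ∈ K}` is
deconstructible, then the instance of Vopěnka's principle for `K` holds. In particular, (DGP)
implies Vopěnka's principle.
-/

namespace Pool.Agent.Results.MP_bc2dbd_lc.DGPImpliesVP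

open Pool.Agent.W631.GP Pool.Agent.W440.DL Pool.Agent.W631.VP

universe u

theorem result :
    (∀ L : FirstOrder.Language.{u, u}, ∃ (R : Type u) (_ : Ring R)
      (G : CategoryTheory.Bundled.{u} L.Structure → ModuleCat.{u} R),
      ∀ K : Set (CategoryTheory.Bundled.{u} L.Structure),
        SetDeconstructible (XGP (fun Y => ∀ A ∈ K, ExtZero (G A) Y)) → VPFor L K) ∧
    (DGP.{u} → VP.{u}) := by
  have main : ∀ L : FirstOrder.Language.{u, u}, ∃ (R : Type u) (_ : Ring R)
      (G : CategoryTheory.Bundled.{u} L.Structure → ModuleCat.{u} R),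
      ∀ K : Set (CategoryTheory.Bundled.{u} L.Structure),
        SetDeconstructible (XGP (fun Y => ∀ A ∈ K, ExtZero (G A) Y)) → VPFor L K := by
    intro L
    refine ⟨Per (FR (Lt L)), inferInstance, fun A => GA L A, ?_⟩
    intro K hK hsmall
    by_contra hcon
    push Not at hcon
    refine key (L := L) (I := K) hsmall (fun i => (i.1 : Type u)) ?_ ?_
    · intro i j hij
      exact ⟨fun f => (hcon i.1 i.2 j.1 j.2 (fun h => hij (Subtype.ext h))).elim f⟩
    · have e : (fun Y => ∀ A ∈ K, ExtZero (GA L A) Y) =
          XX (L := L) (fun i : K => (i.1 : Type u)) := by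
        funext Y
        apply propext
        constructor
        · intro h i
          exact h i.1 i.2
        · intro h A hA
          exact h ⟨A, hA⟩
      rw [← e]
      exact hK
  refine ⟨main, ?_⟩
  intro hD L K
  obtain ⟨R, hR, G, hG⟩ := main L
  exact hG K (hD R _)

end Pool.Agent.Results.MP_bc2dbd_lc.DGPImpliesVP
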